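import Mathlib
import Pool.Agent.H499R2.CO.R4

set_option autoImplicit false

/-! # An integer and its affine images with 3-smooth factor -/

namespace Pool.Agent.H668.SM

open Finset Filter Topology Pool.Agent.H499R2.CO

theorem two_pow_step {d : ℤ} (hd : d % 2 = 1) : ∀ (a : ℕ) (y r : ℤ), ∃ o ≤ a,
    (Tz d)^[a] (2 ^ a * y + r) = 3 ^ o * y + (Tz d)^[a] r := by
  intro a
  induction a with
  | zero => intro y r; exact ⟨0, le_rfl, by simp⟩
  | succ a ih =>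
    intro y r
    rw [Function.iterate_succ_apply, Function.iterate_succ_apply]
    have hz : (2 : ℤ) ^ (a + 1) * y = 2 * (2 ^ a * y) := by ring
    rcases Int.emod_two_eq_zero_or_one r with hr | hr
    · have h1 : Tz d (2 ^ (a + 1) * y + r) = 2 ^ a * y + Tz d r := by
        rw [hz]
        generalize (2 : ℤ) ^ a * y = z
        unfold Tz
        rw [if_pos (by omega), if_pos hr]
        omega
      rw [h1]
      obtain ⟨o, ho, h⟩ := ih y (Tz d r)
      exact ⟨o, by omega, h⟩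
    · have h1 : Tz d (2 ^ (a + 1) * y + r) = 2 ^ a * (3 * y) + Tz d r := by
        have e : (2 : ℤ) ^ a * (3 * y) = 3 * (2 ^ a * y) := by ring
        rw [hz, e]
        generalize (2 : ℤ) ^ a * y = z
        unfold Tz
        rw [if_neg (by omega), if_neg (by omega)]
        omega
      rw [h1]
      obtain ⟨o, ho, h⟩ := ih (3 * y) (Tz d r)
      refine ⟨o + 1, by omega, ?_⟩
      rw [h, pow_succ]
      ring

theorem scale_step {d : ℤ} (hd : d % 2 = 1) (r : ℤ) : Tz d (d * r) = d * Tz 1 r := by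
  obtain ⟨e, he⟩ : ∃ e, d = 2 * e + 1 := ⟨d / 2, by omega⟩
  rcases Int.emod_two_eq_zero_or_one r with hr | hr
  · obtain ⟨a, ha⟩ : ∃ a, r = 2 * a := ⟨r / 2, by omega⟩
    have h1 : (d * r) = 2 * (d * a) := by rw [ha]; ring
    unfold Tz
    rw [if_pos (by rw [h1]; omega), if_pos hr, h1, ha]
    rw [Int.mul_ediv_cancel_left _ (by norm_num), Int.mul_ediv_cancel_left _ (by norm_num)]
  · obtain ⟨a, ha⟩ : ∃ a, r = 2 * a + 1 := ⟨r / 2, by omega⟩
    have h1 : (d * r) % 2 = 1 := odd_mul hd hr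
    unfold Tz
    rw [if_neg (by omega), if_neg (by omega)]
    have h2 : 3 * (d * r) + d = 2 * (d * (3 * a + 2)) := by rw [ha]; ring
    have h3 : 3 * r + 1 = 2 * (3 * a + 2) := by rw [ha]; ring
    rw [h2, h3, Int.mul_ediv_cancel_left _ (by norm_num), Int.mul_ediv_cancel_left _ (by norm_num)]

theorem scale_iter {d : ℤ} (hd : d % 2 = 1) : ∀ (a : ℕ) (r : ℤ),
    (Tz d)^[a] (d * r) = d * (Tz 1)^[a] r := by
  intro a
  induction a with
  | zero => intro r; rfl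
  | succ a ih =>
    intro r
    rw [Function.iterate_succ_apply, Function.iterate_succ_apply, scale_step hd, ih]

theorem abs_step (r : ℤ) : |Tz 1 r| ≤ 2 * |r| := by
  unfold Tz
  split_ifs with h <;> rcases abs_cases r with ⟨h1, h2⟩ | ⟨h1, h2⟩ <;> rw [h1] <;> rw [abs_le] <;>
    constructor <;> omega

theorem abs_iter : ∀ (a : ℕ) (r : ℤ), |(Tz 1)^[a] r| ≤ 2 ^ a * |r| := by
  intro a
  induction a with
  | zero => intro r; simp
  | succ a ih =>
    intro r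
    rw [Function.iterate_succ_apply]
    refine (ih _).trans ?_
    have := abs_step r
    calc (2 : ℤ) ^ a * |Tz 1 r| ≤ 2 ^ a * (2 * |r|) := mul_le_mul_of_nonneg_left this (by positivity)
      _ = 2 ^ (a + 1) * |r| := by ring

/-- `x` and `2 ^ a 3 ^ b x + d r` coalesce unless one of finitely many chains survives. -/
theorem merge_of {d : ℤ} (hd : d % 2 = 1) (a b k : ℕ) (r x : ℤ)
    (h : ∀ i ≤ a + b, ¬ surv d k (i, (Tz 1)^[a] r) x) :
    (Tz d)^[k] x = (Tz d)^[k + a] (2 ^ a * 3 ^ b * x + d * r) := by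
  obtain ⟨o, ho, h1⟩ := two_pow_step hd a (3 ^ b * x) (d * r)
  obtain ⟨t, ht, hh⟩ := coal hd k (o + b) ((Tz 1)^[a] r) x (h (o + b) (by omega))
  have h2 := iter_persist hh ht
  rw [h2, Function.iterate_add_apply]
  congr 1
  have e : (2 : ℤ) ^ a * 3 ^ b * x + d * r = 2 ^ a * (3 ^ b * x) + d * r := by ring
  rw [e, h1, scale_iter hd]
  ring

open Classical in
/-- the union bound -/
theorem union_count : ∃ C : ℝ, 0 < C ∧ ∀ N : ℕ, 16 ≤ N → ∀ d : ℤ, d % 2 = 1 → ∀ m : ℕ,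
    (#{n ∈ Icc 1 N | ∃ a ≤ m, ∃ i ≤ m, ∃ r : ℤ, |r| ≤ m ∧
      surv d (Nat.log 2 N / 4) (i, (Tz 1)^[a] r) (n : ℕ)} : ℝ) ≤
      C * ((m : ℝ) + 1) ^ 4 * √ (Real.log (Real.log N) / Real.log N) * N := by
  obtain ⟨C, hC, h⟩ := q_N
  refine ⟨4 * C, by positivity, fun N hN d hd m => ?_⟩
  set K := Nat.log 2 N / 4 with hK
  set ρ := √ (Real.log (Real.log N) / Real.log N) with hρ
  have hNr : (16 : ℝ) ≤ N := by exact_mod_cast hN
  have hlogN : 1 < Real.log N := by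
    have h1 : Real.exp 1 < N := by
      have := Real.exp_one_lt_d9
      linarith
    exact (Real.lt_log_iff_exp_lt (by linarith)).2 h1
  have hll : 0 < Real.log (Real.log N) := Real.log_pos hlogN
  have hρ2 : 0 ≤ Real.log (Real.log N) / Real.log N := by positivity
  have hone : ∀ a ≤ m, ∀ i ≤ m, ∀ r : ℤ, |r| ≤ m →
      (#{n ∈ Icc 1 N | surv d K (i, (Tz 1)^[a] r) (n : ℕ)} : ℝ) ≤ C * (2 * ((m : ℝ) + 1)) * ρ * N := by
    intro a ha i hi r hr
    have hR : |(Tz 1)^[a] r| ≤ ((2 ^ m * m : ℕ) : ℤ) := by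
      refine (abs_iter a r).trans ?_
      push_cast
      have h1 : (2 : ℤ) ^ a ≤ 2 ^ m := pow_le_pow_right₀ (by norm_num) ha
      exact mul_le_mul h1 hr (abs_nonneg _) (by positivity)
    have h1 := h N hN i ((Tz 1)^[a] r) (2 ^ m * m) hR
    refine (count_le hd _ _ N).trans (h1.trans ?_)
    have hi' : (i : ℝ) ^ 2 ≤ (m : ℝ) ^ 2 := by
      have : (i : ℝ) ≤ m := by exact_mod_cast hi
      exact pow_le_pow_left₀ (by positivity) this 2
    have hlog : Real.log (1 + ((2 ^ m * m : ℕ) : ℝ)) ≤ 1 + 2 * m := by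
      have h2 : (1 + ((2 ^ m * m : ℕ) : ℝ)) ≤ 2 * 4 ^ m := by
        have h3 : m < 2 ^ m := Nat.lt_two_pow_self
        have h4 : 1 + 2 ^ m * m ≤ 2 * 4 ^ m := by
          have h5 : 2 ^ m * m ≤ 2 ^ m * 2 ^ m := Nat.mul_le_mul_left _ h3.le
          have h6 : 2 ^ m * 2 ^ m = 4 ^ m := by rw [← mul_pow]; norm_num
          have h7 : 1 ≤ 4 ^ m := Nat.one_le_pow _ _ (by norm_num)
          omega
        exact_mod_cast h4
      have h3 : Real.log (2 * 4 ^ m) = (1 + 2 * m) * Real.log 2 := by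
        have : (2 * 4 ^ m : ℝ) = 2 ^ (1 + 2 * m) := by
          rw [pow_add, pow_mul]; norm_num
        rw [this, Real.log_pow]; push_cast; ring
      have h4 : Real.log 2 < 1 := by
        have := Real.log_two_lt_d9
        linarith
      calc Real.log (1 + ((2 ^ m * m : ℕ) : ℝ)) ≤ Real.log (2 * 4 ^ m) :=
            Real.log_le_log (by positivity) h2
        _ = (1 + 2 * m) * Real.log 2 := h3
        _ ≤ (1 + 2 * m) * 1 := mul_le_mul_of_nonneg_left h4.le (by positivity)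
        _ = 1 + 2 * m := by ring
    have hsum : 1 + (i : ℝ) ^ 2 + Real.log (1 + ((2 ^ m * m : ℕ) : ℝ)) ≤ (2 * ((m : ℝ) + 1)) ^ 2 := by
      have : (0 : ℝ) ≤ m := by positivity
      nlinarith
    have hs : √ ((1 + (i : ℝ) ^ 2 + Real.log (1 + ((2 ^ m * m : ℕ) : ℝ))) *
        (Real.log (Real.log N) / Real.log N)) ≤ (2 * ((m : ℝ) + 1)) * ρ := by
      calc √ ((1 + (i : ℝ) ^ 2 + Real.log (1 + ((2 ^ m * m : ℕ) : ℝ))) *
          (Real.log (Real.log N) / Real.log N))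
          ≤ √ ((2 * ((m : ℝ) + 1)) ^ 2 * (Real.log (Real.log N) / Real.log N)) :=
            Real.sqrt_le_sqrt (mul_le_mul_of_nonneg_right hsum hρ2)
        _ = (2 * ((m : ℝ) + 1)) * ρ := by
            rw [Real.sqrt_mul (by positivity), Real.sqrt_sq (by positivity)]
    calc C * √ ((1 + (i : ℝ) ^ 2 + Real.log (1 + ((2 ^ m * m : ℕ) : ℝ))) *
          (Real.log (Real.log N) / Real.log N)) * N
        ≤ C * ((2 * ((m : ℝ) + 1)) * ρ) * N :=
          mul_le_mul_of_nonneg_right (mul_le_mul_of_nonneg_left hs hC.le) (by positivity)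
      _ = C * (2 * ((m : ℝ) + 1)) * ρ * N := by ring
  have hsub : ({n ∈ Icc 1 N | ∃ a ≤ m, ∃ i ≤ m, ∃ r : ℤ, |r| ≤ m ∧
      surv d K (i, (Tz 1)^[a] r) (n : ℕ)} : Finset ℕ) ⊆
      ((range (m + 1)) ×ˢ ((range (m + 1)) ×ˢ (Icc (-(m : ℤ)) m))).biUnion
        (fun p => {n ∈ Icc 1 N | surv d K (p.2.1, (Tz 1)^[p.1] p.2.2) (n : ℕ)}) := by
    intro n hn
    rw [mem_filter] at hn
    obtain ⟨hn1, a, ha, i, hi, r, hr, hs⟩ := hn
    rw [mem_biUnion]
    refine ⟨(a, i, r), ?_, mem_filter.2 ⟨hn1, hs⟩⟩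
    rw [abs_le] at hr
    simp only [mem_product, mem_range, mem_Icc]
    omega
  have h1 : (#{n ∈ Icc 1 N | ∃ a ≤ m, ∃ i ≤ m, ∃ r : ℤ, |r| ≤ m ∧
      surv d K (i, (Tz 1)^[a] r) (n : ℕ)} : ℝ) ≤
      ∑ p ∈ ((range (m + 1)) ×ˢ ((range (m + 1)) ×ˢ (Icc (-(m : ℤ)) m))),
        (#{n ∈ Icc 1 N | surv d K (p.2.1, (Tz 1)^[p.1] p.2.2) (n : ℕ)} : ℝ) := by
    have := (card_le_card hsub).trans card_biUnion_le
    exact_mod_cast this
  have h2 : ∑ p ∈ ((range (m + 1)) ×ˢ ((range (m + 1)) ×ˢ (Icc (-(m : ℤ)) m))),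
        (#{n ∈ Icc 1 N | surv d K (p.2.1, (Tz 1)^[p.1] p.2.2) (n : ℕ)} : ℝ) ≤
      ∑ p ∈ ((range (m + 1)) ×ˢ ((range (m + 1)) ×ˢ (Icc (-(m : ℤ)) m))),
        C * (2 * ((m : ℝ) + 1)) * ρ * N := by
    apply sum_le_sum
    rintro ⟨a, i, r⟩ hp
    simp only [mem_product, mem_range, mem_Icc] at hp
    exact hone a (by omega) i (by omega) r (abs_le.2 hp.2.2)
  rw [sum_const, card_product, card_product, card_range, Int.card_Icc] at h2
  have h3 : ((m : ℤ) + 1 - -(m : ℤ)).toNat = 2 * m + 1 := by omega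
  rw [h3, nsmul_eq_mul] at h2
  have hm : (0 : ℝ) ≤ m := by positivity
  have hρ0 : 0 ≤ ρ := Real.sqrt_nonneg _
  have h4 : (((m + 1) * ((m + 1) * (2 * m + 1)) : ℕ) : ℝ) * (C * (2 * ((m : ℝ) + 1)) * ρ * N) ≤
      4 * C * ((m : ℝ) + 1) ^ 4 * ρ * N := by
    push_cast
    have h5 : (0 : ℝ) ≤ C * ((m : ℝ) + 1) ^ 3 * ρ * N := by positivity
    have e : ((m : ℝ) + 1) * (((m : ℝ) + 1) * (2 * m + 1)) * (C * (2 * ((m : ℝ) + 1)) * ρ * N) =
        (2 * (2 * (m : ℝ) + 1)) * (C * ((m : ℝ) + 1) ^ 3 * ρ * N) := by ring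
    have e2 : 4 * C * ((m : ℝ) + 1) ^ 4 * ρ * N =
        (4 * ((m : ℝ) + 1)) * (C * ((m : ℝ) + 1) ^ 3 * ρ * N) := by ring
    rw [e, e2]
    apply mul_le_mul_of_nonneg_right _ h5
    linarith
  exact h1.trans (h2.trans h4)

end Pool.Agent.H668.SM
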