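import Mathlib
import Pool.Agent.H668.SM.A

set_option autoImplicit false

/-! # The exceptional set is small -/

namespace Pool.Agent.H668.SM

open Finset Filter Topology Pool.Agent.H499R2.CO

/-- the largest `m` with `m ^ 9 ≤ log₂ N` -/
def mm (N : ℕ) : ℕ := Nat.findGreatest (fun m => m ^ 9 ≤ Nat.log 2 N) (Nat.log 2 N)

theorem mm_pow (N : ℕ) : mm N ^ 9 ≤ Nat.log 2 N := by
  unfold mm
  exact Nat.findGreatest_spec (P := fun m => m ^ 9 ≤ Nat.log 2 N) (Nat.zero_le _) (by simp)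

theorem le_mm {N w : ℕ} (h : w ^ 9 ≤ Nat.log 2 N) : w ≤ mm N := by
  unfold mm
  exact Nat.le_findGreatest ((Nat.le_self_pow (by norm_num) w).trans h) h

theorem g_lim : Tendsto (fun x : ℝ => 32 * √ (Real.log x / x ^ (1 / 9 : ℝ))) atTop (𝓝 0) := by
  have h1 := (isLittleO_log_rpow_atTop (r := 1 / 9) (by norm_num)).tendsto_div_nhds_zero
  have h2 := (h1.sqrt).const_mul 32
  simpa using h2

theorem mm_le {N : ℕ} (hN : 16 ≤ N) :
    ((mm N : ℝ) + 1) ^ 4 * √ (Real.log (Real.log N) / Real.log N) ≤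
      32 * √ (Real.log (Real.log N) / Real.log N ^ (1 / 9 : ℝ)) := by
  have hNr : (16 : ℝ) ≤ N := by exact_mod_cast hN
  have hx1 : 1 < Real.log N := by
    have h1 : Real.exp 1 < N := by
      have := Real.exp_one_lt_d9
      linarith
    exact (Real.lt_log_iff_exp_lt (by linarith)).2 h1
  set x := Real.log N with hx
  have hlx : 0 < Real.log x := Real.log_pos hx1
  have h1 : (mm N : ℝ) ^ 9 ≤ 2 * x := by
    have h2 : ((mm N ^ 9 : ℕ) : ℝ) ≤ Nat.log 2 N := by exact_mod_cast mm_pow N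
    have h3 : (Nat.log 2 N : ℝ) * Real.log 2 ≤ x := by
      have h4 : ((2 : ℝ) ^ (Nat.log 2 N)) ≤ N := by
        exact_mod_cast Nat.pow_log_le_self 2 (by omega : N ≠ 0)
      have h5 := Real.log_le_log (by positivity) h4
      rwa [Real.log_pow] at h5
    have h6 : (0.5 : ℝ) < Real.log 2 := by
      have := Real.log_two_gt_d9
      linarith
    push_cast at h2
    have h7 : (0 : ℝ) ≤ Nat.log 2 N := by positivity
    nlinarith
  have h2 : (mm N : ℝ) ≤ (2 * x) ^ (1 / 9 : ℝ) := by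
    have h3 : ((mm N : ℝ) ^ 9) ^ (1 / 9 : ℝ) ≤ (2 * x) ^ (1 / 9 : ℝ) :=
      Real.rpow_le_rpow (by positivity) h1 (by norm_num)
    have h4 : ((mm N : ℝ) ^ 9) ^ (1 / 9 : ℝ) = mm N := by
      rw [← Real.rpow_natCast, ← Real.rpow_mul (by positivity)]
      norm_num
    rwa [h4] at h3
  have h3 : (1 : ℝ) ≤ (2 * x) ^ (1 / 9 : ℝ) := Real.one_le_rpow (by linarith) (by norm_num)
  have h4 : ((mm N : ℝ) + 1) ^ 4 ≤ 32 * x ^ (4 / 9 : ℝ) := by
    calc ((mm N : ℝ) + 1) ^ 4 ≤ (2 * (2 * x) ^ (1 / 9 : ℝ)) ^ 4 :=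
          pow_le_pow_left₀ (by positivity) (by linarith) 4
      _ = 16 * (2 * x) ^ (4 / 9 : ℝ) := by
          rw [mul_pow, ← Real.rpow_natCast ((2 * x) ^ (1 / 9 : ℝ)), ← Real.rpow_mul (by positivity)]
          norm_num
      _ = 16 * 2 ^ (4 / 9 : ℝ) * x ^ (4 / 9 : ℝ) := by
          rw [Real.mul_rpow (by norm_num) (by positivity)]; ring
      _ ≤ 32 * x ^ (4 / 9 : ℝ) := by
          apply mul_le_mul_of_nonneg_right _ (by positivity)
          have : (2 : ℝ) ^ (4 / 9 : ℝ) ≤ 2 ^ (1 : ℝ) :=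
            Real.rpow_le_rpow_of_exponent_le (by norm_num) (by norm_num)
          rw [Real.rpow_one] at this
          linarith
  have hx0 : 0 < x := by linarith
  have h5 : x ^ (4 / 9 : ℝ) * √ (Real.log x / x) = √ (Real.log x / x ^ (1 / 9 : ℝ)) := by
    have e1 : x ^ (4 / 9 : ℝ) = √ (x ^ (8 / 9 : ℝ)) := by
      rw [Real.sqrt_eq_rpow, ← Real.rpow_mul hx0.le]
      norm_num
    rw [e1, ← Real.sqrt_mul (by positivity)]
    congr 1
    have e2 : x = x ^ (8 / 9 : ℝ) * x ^ (1 / 9 : ℝ) := by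
      rw [← Real.rpow_add hx0]; norm_num
    have h8 : 0 < x ^ (8 / 9 : ℝ) := by positivity
    have h9 : 0 < x ^ (1 / 9 : ℝ) := by positivity
    rw [mul_div_assoc', div_eq_div_iff hx0.ne' h9.ne']
    calc x ^ (8 / 9 : ℝ) * Real.log x * x ^ (1 / 9 : ℝ)
        = Real.log x * (x ^ (8 / 9 : ℝ) * x ^ (1 / 9 : ℝ)) := by ring
      _ = Real.log x * x := by rw [← e2]
  calc ((mm N : ℝ) + 1) ^ 4 * √ (Real.log x / x) ≤ (32 * x ^ (4 / 9 : ℝ)) * √ (Real.log x / x) :=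
        mul_le_mul_of_nonneg_right h4 (Real.sqrt_nonneg _)
    _ = 32 * (x ^ (4 / 9 : ℝ) * √ (Real.log x / x)) := by ring
    _ = 32 * √ (Real.log x / x ^ (1 / 9 : ℝ)) := by rw [h5]

open Classical in
theorem small {ε : ℝ} (hε : 0 < ε) : ∃ N0 : ℕ, ∀ N ≥ N0, ∀ d : ℤ, d % 2 = 1 →
    (#{n ∈ Icc 1 N | ¬ (4 ^ (Nat.log 2 N / 4) ≤ n ∧ ∀ (a b : ℕ) (r : ℤ),
      (a + b + r.natAbs) ^ 9 ≤ Nat.log 2 N →
      ∀ i ≤ a + b, ¬ surv d (Nat.log 2 N / 4) (i, (Tz 1)^[a] r) (n : ℕ))} : ℝ) ≤ ε * N := by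
  obtain ⟨C, hC, h⟩ := union_count
  have hlim : Tendsto (fun N : ℕ => C * (32 * √ (Real.log (Real.log N) / Real.log N ^ (1 / 9 : ℝ))))
      atTop (𝓝 0) := by
    have h1 := (g_lim.comp (Real.tendsto_log_atTop.comp tendsto_natCast_atTop_atTop)).const_mul C
    rw [mul_zero] at h1
    exact h1
  obtain ⟨N1, hN1⟩ := eventually_atTop.1 (hlim.eventually (gt_mem_nhds (half_pos hε)))
  obtain ⟨N2, hN2⟩ := exists_nat_gt ((2 / ε) ^ 2)
  refine ⟨max (max N1 N2) 16, fun N hN d hd => ?_⟩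
  have hNa : N1 ≤ N := (le_max_left _ _).trans ((le_max_left _ _).trans hN)
  have hNb : N2 ≤ N := (le_max_right _ _).trans ((le_max_left _ _).trans hN)
  have hNc : 16 ≤ N := (le_max_right _ _).trans hN
  have hN0 : (0 : ℝ) < N := by
    have : (16 : ℝ) ≤ N := by exact_mod_cast hNc
    linarith
  set K := Nat.log 2 N / 4 with hK
  have h1 := h N hNc d hd (mm N)
  have h2 := mm_le hNc
  have h3 := (hN1 N hNa).le
  have h4 : C * ((mm N : ℝ) + 1) ^ 4 * √ (Real.log (Real.log N) / Real.log N) * N ≤ ε / 2 * N := by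
    apply mul_le_mul_of_nonneg_right _ hN0.le
    calc C * ((mm N : ℝ) + 1) ^ 4 * √ (Real.log (Real.log N) / Real.log N)
        = C * (((mm N : ℝ) + 1) ^ 4 * √ (Real.log (Real.log N) / Real.log N)) := by ring
      _ ≤ C * (32 * √ (Real.log (Real.log N) / Real.log N ^ (1 / 9 : ℝ))) :=
          mul_le_mul_of_nonneg_left h2 hC.le
      _ ≤ ε / 2 := h3
  have h5 : (#{n ∈ Icc 1 N | n < 4 ^ K} : ℝ) ≤ ε / 2 * N := by
    have h6 : #{n ∈ Icc 1 N | n < 4 ^ K} ≤ 4 ^ K := by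
      have : ({n ∈ Icc 1 N | n < 4 ^ K} : Finset ℕ) ⊆ range (4 ^ K) := by
        intro n hn
        rw [mem_filter] at hn
        exact mem_range.2 hn.2
      have := card_le_card this
      rwa [card_range] at this
    have h7 : ((4 : ℝ) ^ K) ^ 2 ≤ N := by
      have h8 : (4 ^ K) ^ 2 ≤ N := by
        calc (4 ^ K) ^ 2 = 2 ^ (4 * K) := by
              rw [show (4 : ℕ) = 2 ^ 2 by norm_num, ← pow_mul, ← pow_mul]; congr 1; omega
          _ ≤ 2 ^ (Nat.log 2 N) := Nat.pow_le_pow_right (by norm_num) (by omega)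
          _ ≤ N := Nat.pow_log_le_self 2 (by omega)
      exact_mod_cast h8
    have h9 : (2 / ε) ^ 2 ≤ N := hN2.le.trans (by exact_mod_cast hNb)
    have h10 : (4 : ℝ) ^ K ≤ ε / 2 * N := by
      have h11 : (4 : ℝ) ^ K ≤ √ N := Real.le_sqrt_of_sq_le h7
      have h12 : 2 / ε ≤ √ N := Real.le_sqrt_of_sq_le h9
      have h13 : 1 ≤ ε / 2 * √ N := by
        have := mul_le_mul_of_nonneg_left h12 (half_pos hε).le
        have e : ε / 2 * (2 / ε) = 1 := by field_simp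
        linarith
      have h14 : √ (N : ℝ) * √ N = N := Real.mul_self_sqrt hN0.le
      calc (4 : ℝ) ^ K ≤ √ N := h11
        _ ≤ (ε / 2 * √ N) * √ N := by
            have := mul_le_mul_of_nonneg_right h13 (Real.sqrt_nonneg (N : ℝ))
            linarith
        _ = ε / 2 * N := by rw [mul_assoc, h14]
    have h15 : ((#{n ∈ Icc 1 N | n < 4 ^ K} : ℕ) : ℝ) ≤ ((4 ^ K : ℕ) : ℝ) := by exact_mod_cast h6
    push_cast at h15
    linarith
  have hsub : ({n ∈ Icc 1 N | ¬ (4 ^ K ≤ n ∧ ∀ (a b : ℕ) (r : ℤ),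
      (a + b + r.natAbs) ^ 9 ≤ Nat.log 2 N →
      ∀ i ≤ a + b, ¬ surv d K (i, (Tz 1)^[a] r) (n : ℕ))} : Finset ℕ) ⊆
      {n ∈ Icc 1 N | ∃ a ≤ mm N, ∃ i ≤ mm N, ∃ r : ℤ, |r| ≤ mm N ∧
        surv d K (i, (Tz 1)^[a] r) (n : ℕ)} ∪ {n ∈ Icc 1 N | n < 4 ^ K} := by
    intro n hn
    rw [mem_filter] at hn
    rw [mem_union, mem_filter, mem_filter]
    by_cases hnk : n < 4 ^ K
    · exact Or.inr ⟨hn.1, hnk⟩
    · left
      refine ⟨hn.1, ?_⟩
      by_contra hcon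
      apply hn.2
      refine ⟨by omega, fun a b r hab i hi hs => hcon ?_⟩
      have h6 := le_mm hab
      refine ⟨a, by omega, i, by omega, r, ?_, hs⟩
      rw [← Int.natCast_natAbs]
      exact_mod_cast (by omega : r.natAbs ≤ mm N)
  have h6 : (#{n ∈ Icc 1 N | ¬ (4 ^ K ≤ n ∧ ∀ (a b : ℕ) (r : ℤ),
      (a + b + r.natAbs) ^ 9 ≤ Nat.log 2 N →
      ∀ i ≤ a + b, ¬ surv d K (i, (Tz 1)^[a] r) (n : ℕ))} : ℝ) ≤
      #{n ∈ Icc 1 N | ∃ a ≤ mm N, ∃ i ≤ mm N, ∃ r : ℤ, |r| ≤ mm N ∧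
        surv d K (i, (Tz 1)^[a] r) (n : ℕ)} + #{n ∈ Icc 1 N | n < 4 ^ K} := by
    have := (card_le_card hsub).trans (card_union_le _ _)
    exact_mod_cast this
  linarith

end Pool.Agent.H668.SM
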