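import Mathlib
import Pool.Agent.H668.SM.B
import Pool.Agent.H499R2.CO.R5
import Pool.Agent.H426R3.CL.Loc

set_option autoImplicit false

/-! # Almost all integers coalesce with all their small 3-smooth affine images -/

namespace Pool.Agent.H668.SM

open Finset Filter Topology Pool.Agent.H499R2.CO

open Pool.Agent.H499R2.ND (cnt Ci)

theorem main_T {s : ℤ} (hs : s = 1 ∨ s = -1) :
    HD (fun n : ℕ => ∃ t : ℕ, 4 ^ t ≤ n ∧ ∀ (a b : ℕ) (r : ℤ),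
      (a + b + r.natAbs) ^ 9 ≤ Nat.log 2 n →
      (Tz 1)^[t] (s * (n : ℤ)) = (Tz 1)^[t + a] (2 ^ a * 3 ^ b * (s * (n : ℤ)) + r)) 1 := by
  classical
  rw [HD_iff]
  apply density_one
  intro ε hε
  obtain ⟨N0, hN0⟩ := small hε
  refine ⟨N0, fun N => ?_⟩
  rcases Nat.lt_or_ge N N0 with h | h
  · have h1 := card_filter_le (Icc 1 N) (fun n : ℕ => ¬ ∃ t : ℕ, 4 ^ t ≤ n ∧ ∀ (a b : ℕ) (r : ℤ),
      (a + b + r.natAbs) ^ 9 ≤ Nat.log 2 n →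
      (Tz 1)^[t] (s * (n : ℤ)) = (Tz 1)^[t + a] (2 ^ a * 3 ^ b * (s * (n : ℤ)) + r))
    rw [Nat.card_Icc, Nat.add_sub_cancel] at h1
    have h1' := (Nat.cast_le (α := ℝ)).2 h1
    have h2 : (N : ℝ) ≤ N0 := by exact_mod_cast h.le
    have h3 : 0 ≤ ε * N := by positivity
    linarith
  · have hsodd : s % 2 = 1 := by rcases hs with rfl | rfl <;> norm_num
    have h1 := hN0 N h s hsodd
    have h2 : #{n ∈ Icc 1 N | ¬ ∃ t : ℕ, 4 ^ t ≤ n ∧ ∀ (a b : ℕ) (r : ℤ),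
      (a + b + r.natAbs) ^ 9 ≤ Nat.log 2 n →
      (Tz 1)^[t] (s * (n : ℤ)) = (Tz 1)^[t + a] (2 ^ a * 3 ^ b * (s * (n : ℤ)) + r)} ≤
      #{n ∈ Icc 1 N | ¬ (4 ^ (Nat.log 2 N / 4) ≤ n ∧ ∀ (a b : ℕ) (r : ℤ),
      (a + b + r.natAbs) ^ 9 ≤ Nat.log 2 N →
      ∀ i ≤ a + b, ¬ surv s (Nat.log 2 N / 4) (i, (Tz 1)^[a] r) (n : ℕ))} := by
      apply card_le_card
      intro n hn
      rw [mem_filter] at hn ⊢
      refine ⟨hn.1, ?_⟩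
      rintro ⟨h3, h4⟩
      apply hn.2
      refine ⟨Nat.log 2 N / 4, h3, fun a b r hab => ?_⟩
      have hlog : Nat.log 2 n ≤ Nat.log 2 N := Nat.log_mono_right (mem_Icc.1 hn.1).2
      have h5 := merge_of hsodd a b (Nat.log 2 N / 4) r n (h4 a b r (hab.trans hlog))
      have h6 := congrArg (fun z => s * z) h5
      rw [Tz_sign_iter hs, Tz_sign_iter hs] at h6
      rw [h6]
      congr 1
      rcases hs with rfl | rfl <;> ring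
    have h2' := (Nat.cast_le (α := ℝ)).2 h2
    have h4 : (0 : ℝ) ≤ N0 := by positivity
    linarith

theorem inv_iter {S : Set ℤ} (h : ∀ x : ℤ, x ∈ S ↔ Ci x ∈ S) : ∀ (k : ℕ) (z : ℤ),
    z ∈ S ↔ (Tz 1)^[k] z ∈ S := by
  have hi : ∀ z : ℤ, z ∈ S ↔ Tz 1 z ∈ S := fun z => Pool.Agent.H499R2.ND.Ci_inv h z
  intro k
  induction k with
  | zero => intro z; exact Iff.rfl
  | succ k ih =>
    intro z
    rw [Function.iterate_succ_apply]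
    exact (hi z).trans (ih (Tz 1 z))

/-- invariant sets and 3-smooth affine images -/
theorem inv_smooth {s : ℤ} (hs : s = 1 ∨ s = -1) {S : Set ℤ} (h : ∀ x : ℤ, x ∈ S ↔ Ci x ∈ S) :
    ∃ δ : ℝ, (0 < δ ↔ ∃ x ∈ S, 0 < s * x) ∧ (δ = 1 ↔ ∀ x, 0 < s * x → x ∈ S) ∧
      HD (fun n : ℕ => ∀ (a b : ℕ) (r : ℤ), (a + b + r.natAbs) ^ 9 ≤ Nat.log 2 n →
        2 ^ a * 3 ^ b * (s * (n : ℤ)) + r ∈ S) δ ∧
      HD (fun n : ℕ => ∀ (a b : ℕ) (r : ℤ), (a + b + r.natAbs) ^ 9 ≤ Nat.log 2 n →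
        2 ^ a * 3 ^ b * (s * (n : ℤ)) + r ∉ S) (1 - δ) := by
  obtain ⟨δ, h1, h2, h3⟩ := Pool.Agent.H426R3.CLoc.inv_dens hs h
  have h4 : HD (fun n : ℕ => s * (n : ℤ) ∈ S) δ := by
    have h5 := h3 1 0 one_pos
    rw [Nat.cast_one, div_one] at h5
    unfold HD
    refine h5.congr fun N => ?_
    unfold cnt
    simp only [Nat.mod_one, true_and]
  have hE := main_T hs
  have key : ∀ n : ℕ, (∃ t : ℕ, 4 ^ t ≤ n ∧ ∀ (a b : ℕ) (r : ℤ),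
      (a + b + r.natAbs) ^ 9 ≤ Nat.log 2 n →
      (Tz 1)^[t] (s * (n : ℤ)) = (Tz 1)^[t + a] (2 ^ a * 3 ^ b * (s * (n : ℤ)) + r)) →
      ∀ (a b : ℕ) (r : ℤ), (a + b + r.natAbs) ^ 9 ≤ Nat.log 2 n →
        (2 ^ a * 3 ^ b * (s * (n : ℤ)) + r ∈ S ↔ s * (n : ℤ) ∈ S) := by
    rintro n ⟨t, _, ht⟩ a b r hab
    rw [inv_iter h (t + a) (2 ^ a * 3 ^ b * (s * (n : ℤ)) + r), ← ht a b r hab, ← inv_iter h t]
  have h0 : ∀ n : ℕ, (0 + 0 + (0 : ℤ).natAbs) ^ 9 ≤ Nat.log 2 n := fun n => by simp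
  refine ⟨δ, h1, h2, HD_congr hE h4 (fun n _ hn => ⟨fun h5 a b r hab => (key n hn a b r hab).2 h5,
    fun h5 => ?_⟩), HD_congr hE (HD_not h4) (fun n _ hn => ⟨fun h5 a b r hab hcon =>
      h5 ((key n hn a b r hab).1 hcon), fun h5 => ?_⟩)⟩
  · have := h5 0 0 0 (h0 n)
    simpa using this
  · have := h5 0 0 0 (h0 n)
    simpa using this

/-- a counting form, for every `3x+d` map -/
theorem count_T : ∃ K : ℝ, 0 < K ∧ ∀ N : ℕ, 16 ≤ N → ∀ m : ℕ, ∀ s : ℤ, (s = 1 ∨ s = -1) →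
    ({n : ℕ | 1 ≤ n ∧ n ≤ N ∧ ¬ ∀ (a b : ℕ) (r : ℤ), a + b ≤ m → |r| ≤ m →
      (Tz 1)^[Nat.log 2 N / 4] (s * (n : ℤ)) =
        (Tz 1)^[Nat.log 2 N / 4 + a] (2 ^ a * 3 ^ b * (s * (n : ℤ)) + r)}.ncard : ℝ) ≤
      K * ((m : ℝ) + 1) ^ 4 * √ (Real.log (Real.log N) / Real.log N) * N := by
  classical
  obtain ⟨K, hK, h⟩ := union_count
  refine ⟨K, hK, fun N hN m s hs => ?_⟩
  have hsodd : s % 2 = 1 := by rcases hs with rfl | rfl <;> norm_num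
  refine le_trans ?_ (h N hN s hsodd m)
  rw [ncard_filter (fun n : ℕ => ¬ ∀ (a b : ℕ) (r : ℤ), a + b ≤ m → |r| ≤ m →
      (Tz 1)^[Nat.log 2 N / 4] (s * (n : ℤ)) =
        (Tz 1)^[Nat.log 2 N / 4 + a] (2 ^ a * 3 ^ b * (s * (n : ℤ)) + r))]
  rw [Nat.cast_le]
  apply card_le_card
  intro n hn
  rw [mem_filter] at hn ⊢
  refine ⟨hn.1, ?_⟩
  by_contra hcon
  apply hn.2
  intro a b r hab hr
  have h5 := merge_of hsodd a b (Nat.log 2 N / 4) r n (fun i hi hsu =>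
    hcon ⟨a, by omega, i, by omega, r, hr, hsu⟩)
  have h6 := congrArg (fun z => s * z) h5
  rw [Tz_sign_iter hs, Tz_sign_iter hs] at h6
  rw [h6]
  congr 1
  rcases hs with rfl | rfl <;> ring

end Pool.Agent.H668.SM
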