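import Mathlib
import Pool.Agent.H668.SM.C

set_option autoImplicit false

/-! # The `3x+d` maps -/

namespace Pool.Agent.H668.SM

open Finset Filter Topology Pool.Agent.H499R2.CO

theorem sgn_step {d : ℤ} (hd : d % 2 = 1) {s : ℤ} (hs : s = 1 ∨ s = -1) (x : ℤ) :
    s * Tz (s * d) x = Tz d (s * x) := by
  rcases hs with rfl | rfl
  · simp
  · unfold Tz
    rcases Int.emod_two_eq_zero_or_one x with h | h
    · rw [if_pos h, if_pos (by omega)]; omega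
    · rw [if_neg (by omega), if_neg (by omega)]; omega

theorem sgn_iter {d : ℤ} (hd : d % 2 = 1) {s : ℤ} (hs : s = 1 ∨ s = -1) (k : ℕ) : ∀ x : ℤ,
    s * (Tz (s * d))^[k] x = (Tz d)^[k] (s * x) := by
  induction k with
  | zero => intro x; rfl
  | succ k ih =>
    intro x
    rw [Function.iterate_succ_apply, Function.iterate_succ_apply, ih, sgn_step hd hs]

theorem sd_odd {d : ℤ} (hd : d % 2 = 1) {s : ℤ} (hs : s = 1 ∨ s = -1) : (s * d) % 2 = 1 := by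
  rcases hs with rfl | rfl <;> omega

theorem merge_sd {d : ℤ} (hd : d % 2 = 1) {s : ℤ} (hs : s = 1 ∨ s = -1) (a b k : ℕ) (r x : ℤ)
    (h : ∀ i ≤ a + b, ¬ surv (s * d) k (i, (Tz 1)^[a] r) x) :
    (Tz d)^[k] (s * x) = (Tz d)^[k + a] (2 ^ a * 3 ^ b * (s * x) + d * r) := by
  have h5 := merge_of (sd_odd hd hs) a b k r x h
  have h6 := congrArg (fun z => s * z) h5
  rw [sgn_iter hd hs, sgn_iter hd hs] at h6
  rw [h6]
  congr 1
  rcases hs with rfl | rfl <;> ring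

theorem count_Td : ∃ K : ℝ, 0 < K ∧ ∀ N : ℕ, 16 ≤ N → ∀ m : ℕ, ∀ d : ℤ, d % 2 = 1 →
    ∀ s : ℤ, (s = 1 ∨ s = -1) →
    ({n : ℕ | 1 ≤ n ∧ n ≤ N ∧ ¬ ∀ (a b : ℕ) (r : ℤ), a + b ≤ m → |r| ≤ m →
      (Tz d)^[Nat.log 2 N / 4] (s * (n : ℤ)) =
        (Tz d)^[Nat.log 2 N / 4 + a] (2 ^ a * 3 ^ b * (s * (n : ℤ)) + d * r)}.ncard : ℝ) ≤
      K * ((m : ℝ) + 1) ^ 4 * √ (Real.log (Real.log N) / Real.log N) * N := by
  classical
  obtain ⟨K, hK, h⟩ := union_count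
  refine ⟨K, hK, fun N hN m d hd s hs => ?_⟩
  refine le_trans ?_ (h N hN (s * d) (sd_odd hd hs) m)
  rw [ncard_filter (fun n : ℕ => ¬ ∀ (a b : ℕ) (r : ℤ), a + b ≤ m → |r| ≤ m →
      (Tz d)^[Nat.log 2 N / 4] (s * (n : ℤ)) =
        (Tz d)^[Nat.log 2 N / 4 + a] (2 ^ a * 3 ^ b * (s * (n : ℤ)) + d * r))]
  rw [Nat.cast_le]
  apply card_le_card
  intro n hn
  rw [mem_filter] at hn ⊢
  refine ⟨hn.1, ?_⟩
  by_contra hcon
  apply hn.2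
  intro a b r hab hr
  exact merge_sd hd hs a b (Nat.log 2 N / 4) r n (fun i hi hsu =>
    hcon ⟨a, by omega, i, by omega, r, hr, hsu⟩)

theorem main_Td {d : ℤ} (hd : d % 2 = 1) {s : ℤ} (hs : s = 1 ∨ s = -1) :
    HD (fun n : ℕ => ∃ t : ℕ, 4 ^ t ≤ n ∧ ∀ (a b : ℕ) (r : ℤ),
      (a + b + r.natAbs) ^ 9 ≤ Nat.log 2 n →
      (Tz d)^[t] (s * (n : ℤ)) = (Tz d)^[t + a] (2 ^ a * 3 ^ b * (s * (n : ℤ)) + d * r)) 1 := by
  classical
  rw [HD_iff]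
  apply density_one
  intro ε hε
  obtain ⟨N0, hN0⟩ := small hε
  refine ⟨N0, fun N => ?_⟩
  rcases Nat.lt_or_ge N N0 with h | h
  · have h1 := card_filter_le (Icc 1 N) (fun n : ℕ => ¬ ∃ t : ℕ, 4 ^ t ≤ n ∧ ∀ (a b : ℕ) (r : ℤ),
      (a + b + r.natAbs) ^ 9 ≤ Nat.log 2 n →
      (Tz d)^[t] (s * (n : ℤ)) = (Tz d)^[t + a] (2 ^ a * 3 ^ b * (s * (n : ℤ)) + d * r))
    rw [Nat.card_Icc, Nat.add_sub_cancel] at h1
    have h1' := (Nat.cast_le (α := ℝ)).2 h1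
    have h2 : (N : ℝ) ≤ N0 := by exact_mod_cast h.le
    have h3 : 0 ≤ ε * N := by positivity
    linarith
  · have h1 := hN0 N h (s * d) (sd_odd hd hs)
    have h2 : #{n ∈ Icc 1 N | ¬ ∃ t : ℕ, 4 ^ t ≤ n ∧ ∀ (a b : ℕ) (r : ℤ),
      (a + b + r.natAbs) ^ 9 ≤ Nat.log 2 n →
      (Tz d)^[t] (s * (n : ℤ)) = (Tz d)^[t + a] (2 ^ a * 3 ^ b * (s * (n : ℤ)) + d * r)} ≤
      #{n ∈ Icc 1 N | ¬ (4 ^ (Nat.log 2 N / 4) ≤ n ∧ ∀ (a b : ℕ) (r : ℤ),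
      (a + b + r.natAbs) ^ 9 ≤ Nat.log 2 N →
      ∀ i ≤ a + b, ¬ surv (s * d) (Nat.log 2 N / 4) (i, (Tz 1)^[a] r) (n : ℕ))} := by
      apply card_le_card
      intro n hn
      rw [mem_filter] at hn ⊢
      refine ⟨hn.1, ?_⟩
      rintro ⟨h3, h4⟩
      apply hn.2
      refine ⟨Nat.log 2 N / 4, h3, fun a b r hab => ?_⟩
      have hlog : Nat.log 2 n ≤ Nat.log 2 N := Nat.log_mono_right (mem_Icc.1 hn.1).2
      exact merge_sd hd hs a b (Nat.log 2 N / 4) r n (h4 a b r (hab.trans hlog))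
    have h2' := (Nat.cast_le (α := ℝ)).2 h2
    have h4 : (0 : ℝ) ≤ N0 := by positivity
    linarith

theorem inv_iter_d {d : ℤ} {S : Set ℤ} (h : ∀ x : ℤ, x ∈ S ↔ Tz d x ∈ S) : ∀ (k : ℕ) (z : ℤ),
    z ∈ S ↔ (Tz d)^[k] z ∈ S := by
  intro k
  induction k with
  | zero => intro z; exact Iff.rfl
  | succ k ih =>
    intro z
    rw [Function.iterate_succ_apply]
    exact (h z).trans (ih (Tz d z))

/-- invariant sets and 3-smooth affine images -/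
theorem inv_smooth_d {d : ℤ} (hd : d % 2 = 1) (hd3 : ¬ (3 : ℤ) ∣ d) {s : ℤ} (hs : s = 1 ∨ s = -1)
    {S : Set ℤ} (h : ∀ x : ℤ, x ∈ S ↔ Tz d x ∈ S) :
    ∃ δ : ℝ, 0 ≤ δ ∧ δ ≤ 1 ∧ ((∃ x ∈ S, 0 < s * x ∧ ¬ (3 : ℤ) ∣ x) → 0 < δ) ∧
      HD (fun n : ℕ => ∀ (a b : ℕ) (r : ℤ), (a + b + r.natAbs) ^ 9 ≤ Nat.log 2 n →
        2 ^ a * 3 ^ b * (s * (n : ℤ)) + d * r ∈ S) δ ∧
      HD (fun n : ℕ => ∀ (a b : ℕ) (r : ℤ), (a + b + r.natAbs) ^ 9 ≤ Nat.log 2 n →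
        2 ^ a * 3 ^ b * (s * (n : ℤ)) + d * r ∉ S) (1 - δ) := by
  have hdo : Odd d := Int.odd_iff.2 hd
  have hcop : IsCoprime d 3 := by
    have h1 : IsCoprime (3 : ℤ) d :=
      (Prime.coprime_iff_not_dvd (Int.prime_three)).2 hd3
    exact h1.symm
  have hi : Pool.Agent.H499R2.ND.Inv d S := fun x => h x
  obtain ⟨δ, h0, h1, h2⟩ := Pool.Agent.H499R2.ND.dens_side hdo hcop hs hi
  have h4 : HD (fun n : ℕ => s * (n : ℤ) ∈ S) δ := by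
    have h5 := Pool.Agent.H499R2.ND.HD_ncard hs h2
    unfold HD
    refine h5.congr fun N => ?_
    rw [Pool.Agent.H426R3.CLoc.side_ncard hs]
    rfl
  have hE := main_Td hd hs
  have key : ∀ n : ℕ, (∃ t : ℕ, 4 ^ t ≤ n ∧ ∀ (a b : ℕ) (r : ℤ),
      (a + b + r.natAbs) ^ 9 ≤ Nat.log 2 n →
      (Tz d)^[t] (s * (n : ℤ)) = (Tz d)^[t + a] (2 ^ a * 3 ^ b * (s * (n : ℤ)) + d * r)) →
      ∀ (a b : ℕ) (r : ℤ), (a + b + r.natAbs) ^ 9 ≤ Nat.log 2 n →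
        (2 ^ a * 3 ^ b * (s * (n : ℤ)) + d * r ∈ S ↔ s * (n : ℤ) ∈ S) := by
    rintro n ⟨t, _, ht⟩ a b r hab
    rw [inv_iter_d h (t + a) (2 ^ a * 3 ^ b * (s * (n : ℤ)) + d * r), ← ht a b r hab,
      ← inv_iter_d h t]
  have h00 : ∀ n : ℕ, (0 + 0 + (0 : ℤ).natAbs) ^ 9 ≤ Nat.log 2 n := fun n => by simp
  refine ⟨δ, h0, h1, ?_, HD_congr hE h4 (fun n _ hn => ⟨fun h5 a b r hab => (key n hn a b r hab).2 h5,
    fun h5 => ?_⟩), HD_congr hE (HD_not h4) (fun n _ hn => ⟨fun h5 a b r hab hcon =>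
      h5 ((key n hn a b r hab).1 hcon), fun h5 => ?_⟩)⟩
  · rintro ⟨x, hx, hsx, hx3⟩
    exact Pool.Agent.H499R2.ND.class_pos hdo hd3 hs hi hx hsx hx3 h2
  · have := h5 0 0 0 (h00 n)
    simpa using this
  · have := h5 0 0 0 (h00 n)
    simpa using this

/-- the orbit of `x` meets `F` infinitely often -/
def MI (d : ℤ) (F : Finset ℤ) (x : ℤ) : Prop := ∀ J : ℕ, ∃ j, J ≤ j ∧ (Tz d)^[j] x ∈ F

theorem MI_inv (d : ℤ) (F : Finset ℤ) (x : ℤ) : MI d F x ↔ MI d F (Tz d x) := by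
  constructor
  · intro h J
    obtain ⟨j, hj, hF⟩ := h (J + 1)
    obtain ⟨i, rfl⟩ : ∃ i, j = i + 1 := ⟨j - 1, by omega⟩
    exact ⟨i, by omega, by rwa [Function.iterate_succ_apply] at hF⟩
  · intro h J
    obtain ⟨j, hj, hF⟩ := h J
    exact ⟨j + 1, by omega, by rwa [Function.iterate_succ_apply]⟩

theorem even_run (d x : ℤ) : ∀ j : ℕ, (∀ i < j, (Tz d)^[i] x % 2 = 0) →
    x = 2 ^ j * (Tz d)^[j] x := by
  intro j
  induction j with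
  | zero => intro _; simp
  | succ j ih =>
    intro h
    have h1 := ih (fun i hi => h i (by omega))
    have h2 := h j (by omega)
    rw [Function.iterate_succ_apply']
    generalize (Tz d)^[j] x = z at h1 h2 ⊢
    have h3 : z = 2 * Tz d z := by
      unfold Tz
      rw [if_pos h2]
      omega
    rw [h1]
    nth_rewrite 1 [h3]
    ring

theorem exists_odd {d x : ℤ} (h : ∀ j : ℕ, (Tz d)^[j] x ≠ 0) : ∃ j : ℕ, (Tz d)^[j] x % 2 = 1 := by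
  by_contra hcon
  push Not at hcon
  have h1 : ∀ i : ℕ, (Tz d)^[i] x % 2 = 0 := fun i => by
    rcases Int.emod_two_eq_zero_or_one ((Tz d)^[i] x) with h2 | h2
    · exact h2
    · exact (hcon i h2).elim
  have h2 := even_run d x (x.natAbs) (fun i _ => h1 i)
  have h3 := h (x.natAbs)
  have h4 : x.natAbs = 2 ^ x.natAbs * ((Tz d)^[x.natAbs] x).natAbs := by
    have := congrArg Int.natAbs h2
    rwa [Int.natAbs_mul, Int.natAbs_pow] at this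
  have h5 : 1 ≤ ((Tz d)^[x.natAbs] x).natAbs := Int.natAbs_pos.2 h3
  have h6 : x.natAbs < 2 ^ x.natAbs := Nat.lt_two_pow_self
  have h7 : 2 ^ x.natAbs * 1 ≤ x.natAbs :=
    calc 2 ^ x.natAbs * 1 ≤ 2 ^ x.natAbs * ((Tz d)^[x.natAbs] x).natAbs :=
          Nat.mul_le_mul_left _ h5
      _ = x.natAbs := h4.symm
  linarith

theorem q1_d {d : ℤ} (hd : d % 2 = 1) (hd3 : ¬ (3 : ℤ) ∣ d) :
    (¬ ∃ F : Finset ℤ, ∀ x : ℤ, ∃ j : ℕ, (Tz d)^[j] x ∈ F) ↔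
      ∀ F : Finset ℤ, ∃ s : ℤ, (s = 1 ∨ s = -1) ∧ ∃ η : ℝ, 0 < η ∧
        HD (fun n : ℕ => ∀ (a b : ℕ) (r : ℤ), (a + b + r.natAbs) ^ 9 ≤ Nat.log 2 n →
          ¬ MI d F (2 ^ a * 3 ^ b * (s * (n : ℤ)) + d * r)) η := by
  classical
  constructor
  · intro hne F
    push Not at hne
    obtain ⟨x, hx⟩ := hne (insert 0 F)
    have hx0 : ∀ j : ℕ, (Tz d)^[j] x ≠ 0 := fun j hj => hx j (by rw [hj]; exact mem_insert_self _ _)
    have hxF : ∀ j : ℕ, (Tz d)^[j] x ∉ F := fun j hj => hx j (mem_insert_of_mem hj)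
    obtain ⟨j, hj⟩ := exists_odd hx0
    have hinv : ∀ y : ℤ, y ∈ {y | ¬ MI d F y} ↔ Tz d y ∈ {y | ¬ MI d F y} :=
      fun y => not_congr (MI_inv d F y)
    have hy3 : ¬ (3 : ℤ) ∣ (Tz d)^[j + 1] x := by
      rw [Function.iterate_succ_apply']
      generalize (Tz d)^[j] x = z at hj
      unfold Tz
      rw [if_neg (by omega)]
      omega
    have hyS : (Tz d)^[j + 1] x ∈ {y | ¬ MI d F y} := by
      intro hM
      obtain ⟨i, _, hi⟩ := hM 0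
      rw [← Function.iterate_add_apply] at hi
      exact hxF _ hi
    rcases lt_or_gt_of_ne (hx0 (j + 1)) with h | h
    · obtain ⟨δ, -, -, h1, h3, -⟩ := inv_smooth_d hd hd3 (s := -1) (Or.inr rfl) hinv
      exact ⟨-1, Or.inr rfl, δ, h1 ⟨_, hyS, by omega, hy3⟩, h3⟩
    · obtain ⟨δ, -, -, h1, h3, -⟩ := inv_smooth_d hd hd3 (s := 1) (Or.inl rfl) hinv
      exact ⟨1, Or.inl rfl, δ, h1 ⟨_, hyS, by omega, hy3⟩, h3⟩
  · rintro hall ⟨F, hF⟩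
    obtain ⟨s, -, η, hη, h⟩ := hall F
    have hMI : ∀ x : ℤ, MI d F x := by
      intro x J
      obtain ⟨j, hj⟩ := hF ((Tz d)^[J] x)
      exact ⟨j + J, by omega, by rwa [Function.iterate_add_apply]⟩
    have h1 : ∀ N : ℕ, ({n : ℕ | 1 ≤ n ∧ n ≤ N ∧ ∀ (a b : ℕ) (r : ℤ),
        (a + b + r.natAbs) ^ 9 ≤ Nat.log 2 n →
        ¬ MI d F (2 ^ a * 3 ^ b * (s * (n : ℤ)) + d * r)}.ncard : ℝ) / N = 0 := by
      intro N
      have h2 : {n : ℕ | 1 ≤ n ∧ n ≤ N ∧ ∀ (a b : ℕ) (r : ℤ),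
        (a + b + r.natAbs) ^ 9 ≤ Nat.log 2 n →
        ¬ MI d F (2 ^ a * 3 ^ b * (s * (n : ℤ)) + d * r)} = ∅ := by
        ext n
        simp only [Set.mem_ofPred_eq, Set.mem_empty_iff_false, iff_false]
        rintro ⟨-, -, h3⟩
        exact h3 0 0 0 (by simp) (hMI _)
      rw [h2]
      simp
    unfold HD at h
    simp_rw [h1] at h
    have := tendsto_nhds_unique h tendsto_const_nhds
    linarith

end Pool.Agent.H668.SM
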